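import Pool.Agent.helper79.EPT.Spec

/-!
# Row DEC of project ept (MP_f10000_nt, owner helper79)
-/

namespace Pool.Agent.EPT

open Finset

theorem DEC : DEC_stmt := by
  intro W P₁ P₂ δ d hP₁ hP₂ hδ hA
  obtain ⟨hd, hdW, hg⟩ := hA
  set g₁ := Nat.gcd d P₁ with hg₁
  set g₂ := Nat.gcd d P₂ with hg₂
  have hg₁d : g₁ ∣ d := Nat.gcd_dvd_left _ _
  have hg₂d : g₂ ∣ d := Nat.gcd_dvd_left _ _
  have hg₁P : g₁ ∣ P₁ := Nat.gcd_dvd_right _ _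
  have hg₂P : g₂ ∣ P₂ := Nat.gcd_dvd_right _ _
  set e₁ := d / g₁ with he₁
  set e₂ := d / g₂ with he₂
  have h1 : e₁ * g₁ = d := Nat.div_mul_cancel hg₁d
  have h2 : e₂ * g₂ = d := Nat.div_mul_cancel hg₂d
  have he₁0 : 0 < e₁ := Nat.pos_of_ne_zero (fun h => by rw [h, zero_mul] at h1; omega)
  have he₂0 : 0 < e₂ := Nat.pos_of_ne_zero (fun h => by rw [h, zero_mul] at h2; omega)
  have he₁d : e₁ ∣ d := ⟨g₁, h1.symm⟩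
  have he₂d : e₂ ∣ d := ⟨g₂, h2.symm⟩
  have hf₀0 : 0 < Nat.gcd e₁ e₂ := Nat.gcd_pos_of_pos_left _ he₁0
  obtain ⟨f₂, hf₂⟩ := Nat.gcd_dvd_left e₁ e₂
  obtain ⟨f₁, hf₁⟩ := Nat.gcd_dvd_right e₁ e₂
  set f₀ := Nat.gcd e₁ e₂ with hf₀
  have hlcm : Nat.lcm e₁ e₂ = f₀ * f₁ * f₂ := by
    have h3 : f₀ * Nat.lcm e₁ e₂ = e₁ * e₂ := Nat.gcd_mul_lcm e₁ e₂
    have h4 : f₀ * Nat.lcm e₁ e₂ = f₀ * (f₀ * f₁ * f₂) := by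
      rw [h3]
      calc e₁ * e₂ = (f₀ * f₂) * (f₀ * f₁) := by rw [← hf₂, ← hf₁]
        _ = f₀ * (f₀ * f₁ * f₂) := by ring
    exact Nat.eq_of_mul_eq_mul_left hf₀0 h4
  have hld : Nat.lcm e₁ e₂ ∣ d := Nat.lcm_dvd he₁d he₂d
  obtain ⟨h, hh⟩ := hld
  have hdh : d = h * f₀ * f₁ * f₂ := by
    rw [hh, hlcm]
    ring
  have hg₁e : g₁ = h * f₁ := by
    apply Nat.eq_of_mul_eq_mul_left he₁0
    rw [h1, hdh]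
    rw [hf₂]
    ring
  have hg₂e : g₂ = h * f₂ := by
    apply Nat.eq_of_mul_eq_mul_left he₂0
    rw [h2, hdh]
    rw [hf₁]
    ring
  have hf₁P : f₁ ∣ P₁ := (Dvd.intro_left h hg₁e.symm).trans hg₁P
  have hf₂P : f₂ ∣ P₂ := (Dvd.intro_left h hg₂e.symm).trans hg₂P
  refine ⟨h, f₀, f₁, f₂, hdh, ?_, hf₁P, hf₂P, hg, ?_, hlcm, ?_, ?_⟩
  · exact Nat.dvd_gcd ((Dvd.intro _ hg₁e.symm).trans hg₁P) ((Dvd.intro _ hg₂e.symm).trans hg₂P)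
  · exact Nat.Coprime.coprime_dvd_left ((Nat.gcd_dvd_left e₁ e₂).trans he₁d) hdW
  · have h5 : h * f₁ ≤ P₁ := hg₁e ▸ Nat.le_of_dvd hP₁ hg₁P
    have h6 : f₂ ≤ P₂ := Nat.le_of_dvd hP₂ hf₂P
    have h7 : f₀ ≤ δ := Nat.le_of_dvd hδ hg
    calc d = (h * f₁) * f₂ * f₀ := by rw [hdh]; ring
      _ ≤ P₁ * P₂ * δ := Nat.mul_le_mul (Nat.mul_le_mul h5 h6) h7
  · exact Nat.lcm_dvd he₁d he₂d

end Pool.Agent.EPT
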