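import Pool.Agent.helper79.EPT.Spec

/-!
# Row T1L of project ept (MP_f10000_nt, owner helper79)
-/

namespace Pool.Agent.EPT

open Finset

/-- The harmonic sum. -/
theorem T1L_harm (R : ℕ) : ∑ i ∈ Icc 1 R, 1 / (i : ℝ) ≤ 1 + Real.log (R : ℝ) := by
  have h := harmonic_le_one_add_log R
  rw [harmonic_eq_sum_Icc] at h
  refine le_trans (le_of_eq ?_) h
  push_cast
  refine Finset.sum_congr rfl (fun i _ => ?_)
  rw [one_div]

/-- The term for `y < x`. -/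
noncomputable def T1L_t (m x y : ℕ) : ℝ :=
  if y < x ∧ m * Nat.gcd x y ∣ x - y then (Nat.gcd x y : ℝ) / ((x : ℝ) * (y : ℝ)) else 0

theorem T1L_t_nonneg (m x y : ℕ) : 0 ≤ T1L_t m x y := by
  unfold T1L_t
  split_ifs
  · positivity
  · exact le_rfl

/-- The map. -/
def T1L_phi (m : ℕ) (p : ℕ × ℕ) : ℕ × ℕ × ℕ :=
  (Nat.gcd p.1 p.2, p.2 / Nat.gcd p.1 p.2, (p.1 - p.2) / (m * Nat.gcd p.1 p.2))

noncomputable def T1L_F (m : ℕ) (q : ℕ × ℕ × ℕ) : ℝ :=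
  1 / (m : ℝ) * (1 / (q.1 : ℝ) * (1 / (q.2.1 : ℝ) * (1 / (q.2.2 : ℝ))))

theorem T1L_F_nonneg (m : ℕ) (q : ℕ × ℕ × ℕ) : 0 ≤ T1L_F m q := by
  unfold T1L_F
  positivity

/-- The data of a pair. -/
theorem T1L_data {m x y : ℕ} (hm : 1 ≤ m) (hy : 1 ≤ y) (hxy : y < x) (hd : m * Nat.gcd x y ∣ x - y) :
    ∃ g b c : ℕ, T1L_phi m (x, y) = (g, b, c) ∧ 1 ≤ g ∧ 1 ≤ b ∧ 1 ≤ c ∧ y = g * b ∧
      x = g * b + m * g * c ∧ g = Nat.gcd x y := by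
  have hg : 0 < Nat.gcd x y := Nat.gcd_pos_of_pos_right _ hy
  obtain ⟨b, hb⟩ := Nat.gcd_dvd_right x y
  obtain ⟨c, hc⟩ := hd
  have hmg : 0 < m * Nat.gcd x y := Nat.mul_pos hm hg
  have hb1 : 1 ≤ b := by
    rcases Nat.eq_zero_or_pos b with h | h
    · rw [h, mul_zero] at hb
      omega
    · exact h
  have hc1 : 1 ≤ c := by
    rcases Nat.eq_zero_or_pos c with h | h
    · rw [h, mul_zero] at hc
      omega
    · exact h
  refine ⟨Nat.gcd x y, b, c, ?_, hg, hb1, hc1, hb, ?_, rfl⟩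
  · unfold T1L_phi
    have e1 : y / Nat.gcd x y = b := Nat.div_eq_of_eq_mul_right hg hb
    have e2 : (x - y) / (m * Nat.gcd x y) = c := Nat.div_eq_of_eq_mul_right hmg hc
    simp only [e1, e2]
  · omega

theorem T1L_half (R m : ℕ) (hm : 1 ≤ m) :
    ∑ x ∈ Icc 1 R, ∑ y ∈ Icc 1 R, T1L_t m x y ≤ (∑ i ∈ Icc 1 R, 1 / (i : ℝ)) ^ 3 / (m : ℝ) := by
  set S : Finset (ℕ × ℕ) := (Icc 1 R ×ˢ Icc 1 R).filter
    (fun p => p.2 < p.1 ∧ m * Nat.gcd p.1 p.2 ∣ p.1 - p.2) with hS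
  have h1 : ∑ x ∈ Icc 1 R, ∑ y ∈ Icc 1 R, T1L_t m x y =
      ∑ p ∈ S, (Nat.gcd p.1 p.2 : ℝ) / ((p.1 : ℝ) * (p.2 : ℝ)) := by
    rw [← Finset.sum_product', hS, Finset.sum_filter]
    rfl
  have hmem : ∀ p ∈ S, 1 ≤ p.1 ∧ p.1 ≤ R ∧ 1 ≤ p.2 ∧ p.2 ≤ R ∧ p.2 < p.1 ∧
      m * Nat.gcd p.1 p.2 ∣ p.1 - p.2 := by
    intro p hp
    rw [hS, Finset.mem_filter, Finset.mem_product, Finset.mem_Icc, Finset.mem_Icc] at hp
    exact ⟨hp.1.1.1, hp.1.1.2, hp.1.2.1, hp.1.2.2, hp.2.1, hp.2.2⟩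
  have h2 : ∀ p ∈ S, (Nat.gcd p.1 p.2 : ℝ) / ((p.1 : ℝ) * (p.2 : ℝ)) ≤ T1L_F m (T1L_phi m p) := by
    rintro ⟨x, y⟩ hp
    obtain ⟨-, -, hy, -, hxy, hd⟩ := hmem _ hp
    simp only at hy hxy hd
    obtain ⟨g, b, c, hphi, hg, hb, hc, hyy, hxx, hgg⟩ := T1L_data hm hy hxy hd
    rw [hphi]
    unfold T1L_F
    simp only
    rw [← hgg]
    have hg' : (0 : ℝ) < g := by exact_mod_cast hg
    have hb' : (0 : ℝ) < b := by exact_mod_cast hb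
    have hc' : (0 : ℝ) < c := by exact_mod_cast hc
    have hm' : (0 : ℝ) < m := by exact_mod_cast hm
    have e1 : (x : ℝ) = g * b + m * g * c := by exact_mod_cast hxx
    have e2 : (y : ℝ) = g * b := by exact_mod_cast hyy
    rw [e1, e2]
    have e3 : 1 / (m : ℝ) * (1 / (g : ℝ) * (1 / (b : ℝ) * (1 / (c : ℝ)))) =
        (g : ℝ) / ((m * g * c) * (g * b)) := by
      field_simp
    rw [e3]
    apply div_le_div_of_nonneg_left hg'.le (by positivity)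
    apply mul_le_mul_of_nonneg_right _ (by positivity)
    have : 0 < (g : ℝ) * b := by positivity
    linarith
  have hinj : Set.InjOn (T1L_phi m) (S : Set (ℕ × ℕ)) := by
    rintro ⟨x, y⟩ hp ⟨x', y'⟩ hp' heq
    obtain ⟨-, -, hy, -, hxy, hd⟩ := hmem _ hp
    obtain ⟨-, -, hy', -, hxy', hd'⟩ := hmem _ hp'
    simp only at hy hxy hd hy' hxy' hd'
    obtain ⟨g, b, c, hphi, hg, hb, hc, hyy, hxx, hgg⟩ := T1L_data hm hy hxy hd
    obtain ⟨g', b', c', hphi', hg', hb', hc', hyy', hxx', hgg'⟩ := T1L_data hm hy' hxy' hd'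
    rw [hphi, hphi'] at heq
    simp only [Prod.mk.injEq] at heq
    obtain ⟨e1, e2, e3⟩ := heq
    subst e1 e2 e3
    rw [hyy, hxx, hyy', hxx']
  have himg : S.image (T1L_phi m) ⊆ Icc 1 R ×ˢ (Icc 1 R ×ˢ Icc 1 R) := by
    intro q hq
    obtain ⟨⟨x, y⟩, hp, rfl⟩ := Finset.mem_image.1 hq
    obtain ⟨-, hxR, hy, hyR, hxy, hd⟩ := hmem _ hp
    simp only at hxR hy hyR hxy hd
    obtain ⟨g, b, c, hphi, hg, hb, hc, hyy, hxx, hgg⟩ := T1L_data hm hy hxy hd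
    rw [hphi]
    simp only [Finset.mem_product, Finset.mem_Icc]
    have h3 : g ≤ g * b := Nat.le_mul_of_pos_right _ hb
    have h4 : b ≤ g * b := Nat.le_mul_of_pos_left _ hg
    have h5 : c ≤ m * g * c := Nat.le_mul_of_pos_left _ (Nat.mul_pos hm hg)
    refine ⟨⟨hg, by omega⟩, ⟨hb, by omega⟩, hc, by omega⟩
  rw [h1]
  calc ∑ p ∈ S, (Nat.gcd p.1 p.2 : ℝ) / ((p.1 : ℝ) * (p.2 : ℝ))
      ≤ ∑ p ∈ S, T1L_F m (T1L_phi m p) := Finset.sum_le_sum h2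
    _ = ∑ q ∈ S.image (T1L_phi m), T1L_F m q := (Finset.sum_image hinj).symm
    _ ≤ ∑ q ∈ Icc 1 R ×ˢ (Icc 1 R ×ˢ Icc 1 R), T1L_F m q :=
        Finset.sum_le_sum_of_subset_of_nonneg himg (fun q _ _ => T1L_F_nonneg m q)
    _ = (∑ i ∈ Icc 1 R, 1 / (i : ℝ)) ^ 3 / (m : ℝ) := by
        unfold T1L_F
        rw [← Finset.mul_sum]
        rw [Finset.sum_product]
        simp only
        have e1 : ∀ x ∈ Icc 1 R, ∑ y ∈ Icc 1 R ×ˢ Icc 1 R,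
            1 / (x : ℝ) * (1 / (y.1 : ℝ) * (1 / (y.2 : ℝ))) =
            1 / (x : ℝ) * ((∑ i ∈ Icc 1 R, 1 / (i : ℝ)) * ∑ i ∈ Icc 1 R, 1 / (i : ℝ)) := by
          intro x _
          rw [← Finset.mul_sum, Finset.sum_product, Finset.sum_mul_sum]
        rw [Finset.sum_congr rfl e1, ← Finset.sum_mul]
        ring

theorem T1L : T1L_stmt := by
  intro R m hR hm
  have hterm : ∀ x ∈ Icc 1 R, ∀ y ∈ Icc 1 R,
      (if x ≠ y ∧ ((m * Nat.gcd x y : ℕ) : ℤ) ∣ (x : ℤ) - (y : ℤ) then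
        (Nat.gcd x y : ℝ) / ((x : ℝ) * (y : ℝ)) else 0) ≤ T1L_t m x y + T1L_t m y x := by
    intro x _ y _
    split_ifs with h
    · obtain ⟨hne, hd⟩ := h
      rcases Nat.lt_or_ge y x with hlt | hge
      · have e1 : m * Nat.gcd x y ∣ x - y := by
          have : ((m * Nat.gcd x y : ℕ) : ℤ) ∣ ((x - y : ℕ) : ℤ) := by
            rwa [Nat.cast_sub hlt.le]
          exact_mod_cast this
        have e2 : T1L_t m x y = (Nat.gcd x y : ℝ) / ((x : ℝ) * (y : ℝ)) := by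
          unfold T1L_t
          rw [if_pos ⟨hlt, e1⟩]
        rw [e2]
        have := T1L_t_nonneg m y x
        linarith
      · have hlt : x < y := lt_of_le_of_ne hge hne
        have e1 : m * Nat.gcd y x ∣ y - x := by
          have : ((m * Nat.gcd x y : ℕ) : ℤ) ∣ ((y - x : ℕ) : ℤ) := by
            rw [Nat.cast_sub hlt.le]
            have h3 := (dvd_neg (a := ((m * Nat.gcd x y : ℕ) : ℤ)) (b := (x : ℤ) - (y : ℤ))).2 hd
            rwa [neg_sub] at h3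
          rw [Nat.gcd_comm y x]
          exact_mod_cast this
        have e2 : T1L_t m y x = (Nat.gcd x y : ℝ) / ((x : ℝ) * (y : ℝ)) := by
          unfold T1L_t
          rw [if_pos ⟨hlt, e1⟩, Nat.gcd_comm y x, mul_comm (y : ℝ)]
        rw [e2]
        have := T1L_t_nonneg m x y
        linarith
    · exact add_nonneg (T1L_t_nonneg m x y) (T1L_t_nonneg m y x)
  have hm' : (0 : ℝ) < m := by exact_mod_cast hm
  have hhalf := T1L_half R m hm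
  have hH0 : 0 ≤ ∑ i ∈ Icc 1 R, 1 / (i : ℝ) := Finset.sum_nonneg (fun i _ => by positivity)
  have hH : (∑ i ∈ Icc 1 R, 1 / (i : ℝ)) ^ 3 / (m : ℝ) ≤ (1 + Real.log (R : ℝ)) ^ 3 / (m : ℝ) :=
    div_le_div_of_nonneg_right (pow_le_pow_left₀ hH0 (T1L_harm R) 3) hm'.le
  calc ∑ x ∈ Icc 1 R, ∑ y ∈ Icc 1 R, (if x ≠ y ∧ ((m * Nat.gcd x y : ℕ) : ℤ) ∣ (x : ℤ) - (y : ℤ) then
        (Nat.gcd x y : ℝ) / ((x : ℝ) * (y : ℝ)) else 0)
      ≤ ∑ x ∈ Icc 1 R, ∑ y ∈ Icc 1 R, (T1L_t m x y + T1L_t m y x) :=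
        Finset.sum_le_sum (fun x hx => Finset.sum_le_sum (fun y hy => hterm x hx y hy))
    _ = ∑ x ∈ Icc 1 R, ∑ y ∈ Icc 1 R, T1L_t m x y + ∑ x ∈ Icc 1 R, ∑ y ∈ Icc 1 R, T1L_t m y x := by
        rw [← Finset.sum_add_distrib]
        exact Finset.sum_congr rfl (fun x _ => Finset.sum_add_distrib)
    _ = ∑ x ∈ Icc 1 R, ∑ y ∈ Icc 1 R, T1L_t m x y + ∑ x ∈ Icc 1 R, ∑ y ∈ Icc 1 R, T1L_t m x y := by
        congr 1
        exact Finset.sum_comm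
    _ ≤ (1 + Real.log (R : ℝ)) ^ 3 / (m : ℝ) + (1 + Real.log (R : ℝ)) ^ 3 / (m : ℝ) := by linarith
    _ = 2 * (1 + Real.log (R : ℝ)) ^ 3 / (m : ℝ) := by ring

end Pool.Agent.EPT
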